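import Pool.Agent.Y862.SQ.Stm2

/-!
# SQ2-EXC: few exceptional `s` in the middle range, from the large sieve

(adapted from `Pool/Agent/Y436/SQ/EXC.lean` of helper436)
-/

set_option autoImplicit false

namespace Pool.Agent.Y67.SQ

open Finset Pool.Agent.Y862.SQ

/-- tuples of primes with a given product -/
lemma card_tuples (m : ℕ) (B : Finset ℕ) (hB : ∀ p ∈ B, p.Prime) (n : ℕ) :
    ((Fintype.piFinset (fun _ : Fin m => B)).filter (fun x => ∏ i, x i = n)).card ≤ m ^ m := by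
  classical
  rcases Finset.eq_empty_or_nonempty
    ((Fintype.piFinset (fun _ : Fin m => B)).filter (fun x => ∏ i, x i = n)) with h | ⟨x0, hx0⟩
  · rw [h]; simp
  · rw [mem_filter, Fintype.mem_piFinset] at hx0
    obtain ⟨hx0, hn⟩ := hx0
    have key : ((Fintype.piFinset (fun _ : Fin m => B)).filter (fun x => ∏ i, x i = n)) ⊆
        Fintype.piFinset (fun _ : Fin m => univ.image x0) := by
      intro x hx
      rw [mem_filter, Fintype.mem_piFinset] at hx
      rw [Fintype.mem_piFinset]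
      intro i
      have h1 : x i ∣ ∏ k, x0 k := by
        rw [hn, ← hx.2]
        exact Finset.dvd_prod_of_mem x (mem_univ i)
      have hp := hB _ (hx.1 i)
      rw [Prime.dvd_finsetProd_iff hp.prime] at h1
      obtain ⟨k, -, hk⟩ := h1
      rw [Nat.prime_dvd_prime_iff_eq hp (hB _ (hx0 k))] at hk
      rw [mem_image]
      exact ⟨k, mem_univ _, hk.symm⟩
    refine (card_le_card key).trans ?_
    rw [Fintype.card_piFinset_const]
    refine (Nat.pow_le_pow_left (card_image_le.trans (by simp)) _)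

lemma jac_prod (a : ℤ) {ι : Type} (s : Finset ι) (f : ι → ℕ) (hf : ∀ i ∈ s, f i ≠ 0) :
    ∏ i ∈ s, jacobiSym a (f i) = jacobiSym a (∏ i ∈ s, f i) := by
  classical
  induction s using Finset.induction_on with
  | empty => simp
  | insert i s hi ih =>
    rw [prod_insert hi, prod_insert hi, ih (fun k hk => hf k (mem_insert_of_mem hk))]
    have : NeZero (f i) := ⟨hf i (mem_insert_self _ _)⟩
    have : NeZero (∏ k ∈ s, f k) :=
      ⟨prod_ne_zero_iff.2 fun k hk => hf k (mem_insert_of_mem hk)⟩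
    rw [jacobiSym.mul_right]

lemma moment (hE : S_ELSZ) (T j m : ℕ) (B : Finset ℕ)
    (hB : ∀ p ∈ B, p.Prime ∧ Odd p ∧ 2 ^ j ≤ p ∧ p < 2 ^ (j + 1)) :
    ∑ h ∈ Icc (-(T : ℤ)) T, (∑ p ∈ B, (lez h p : ℝ) / p) ^ (2 * m) ≤
      (4 * (((2 ^ (j + 1)) ^ m : ℕ) : ℝ) * √((T : ℝ) + 1) + 100 * ((T : ℝ) + 1) ^ 3) *
        ((m : ℝ) ^ m * (1 / (2 : ℝ) ^ j) ^ m) := by
  classical
  set X := Fintype.piFinset (fun _ : Fin m => B) with hX
  set N : ℕ := (2 ^ (j + 1)) ^ m with hN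
  set a : ℕ → ℝ := fun n => ((X.filter (fun x => ∏ i, x i = n)).card : ℝ) / n with ha
  have hXm : ∀ x ∈ X, ∀ i, x i ∈ B := fun x hx => Fintype.mem_piFinset.1 hx
  have hmaps : ∀ x ∈ X, ∏ i, x i ∈ Icc 1 N := by
    intro x hx
    rw [mem_Icc]
    constructor
    · exact Nat.one_le_iff_ne_zero.2
        (prod_ne_zero_iff.2 fun i _ => (hB _ (hXm x hx i)).1.ne_zero)
    · calc ∏ i, x i ≤ ∏ _i : Fin m, 2 ^ (j + 1) :=
            prod_le_prod' fun i _ => (hB _ (hXm x hx i)).2.2.2.le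
        _ = N := by simp [hN]
  have hpow : ∀ h : ℤ, (∑ p ∈ B, (lez h p : ℝ) / p) ^ m =
      ∑ n ∈ Icc 1 N, a n * (jacobiSym (-h) n : ℝ) := by
    intro h
    rw [Finset.sum_pow', ← Finset.sum_fiberwise_of_maps_to hmaps]
    refine sum_congr rfl fun n _ => ?_
    have h1 : ∀ x ∈ X.filter (fun x => ∏ i, x i = n),
        ∏ i, ((lez h (x i) : ℝ) / (x i : ℝ)) = (jacobiSym (-h) n : ℝ) / n := by
      intro x hx
      rw [mem_filter] at hx
      rw [Finset.prod_div_distrib]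
      have h2 := jac_prod (-h) (univ : Finset (Fin m)) x
        (fun i _ => (hB _ (hXm x hx.1 i)).1.ne_zero)
      rw [hx.2] at h2
      rw [← h2, ← hx.2]
      push_cast
      rfl
    rw [Finset.sum_congr rfl h1, sum_const, nsmul_eq_mul, ha]
    ring
  have heven : ∀ n, Even n → a n = 0 := by
    intro n hn
    have : X.filter (fun x => ∏ i, x i = n) = ∅ := by
      rw [filter_eq_empty_iff]
      intro x hx hxn
      have h1 : Odd (∏ i, x i) := by
        apply Finset.prod_induction _ Odd (fun _ _ => Odd.mul) odd_one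
        intro i _
        exact (hB _ (hXm x hx i)).2.1
      rw [hxn] at h1
      exact (Nat.not_even_iff_odd.2 h1) hn
    simp only [ha, this, card_empty, Nat.cast_zero, zero_div]
  have h1 := hE T N a heven
  have h2 : ∀ h ∈ Icc (-(T : ℤ)) T, (∑ p ∈ B, (lez h p : ℝ) / p) ^ (2 * m) =
      (∑ n ∈ Icc 1 N, a n * (jacobiSym (-h) n : ℝ)) ^ 2 := by
    intro h _
    rw [← hpow h, ← pow_mul, mul_comm m 2]
  rw [Finset.sum_congr rfl h2]
  refine h1.trans (mul_le_mul_of_nonneg_left ?_ (by positivity))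
  -- the sum of the squares of the coefficients
  have h3 : ∀ n ∈ Icc 1 N, a n ^ 2 ≤
      (m : ℝ) ^ m * ∑ x ∈ X.filter (fun x => ∏ i, x i = n), ∏ i, (1 / ((x i : ℝ)) ^ 2) := by
    intro n _
    have h4 : ∀ x ∈ X.filter (fun x => ∏ i, x i = n),
        ∏ i, (1 / ((x i : ℝ)) ^ 2) = 1 / (n : ℝ) ^ 2 := by
      intro x hx
      rw [mem_filter] at hx
      rw [Finset.prod_div_distrib, prod_const_one, Finset.prod_pow, ← hx.2]
      push_cast
      rfl
    rw [Finset.sum_congr rfl h4, sum_const, nsmul_eq_mul]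
    have h5 : ((X.filter (fun x => ∏ i, x i = n)).card : ℝ) ≤ (m : ℝ) ^ m := by
      exact_mod_cast card_tuples m B (fun p hp => (hB p hp).1) n
    have h6 : (0 : ℝ) ≤ ((X.filter (fun x => ∏ i, x i = n)).card : ℝ) := Nat.cast_nonneg _
    calc a n ^ 2 = ((X.filter (fun x => ∏ i, x i = n)).card : ℝ) *
          (((X.filter (fun x => ∏ i, x i = n)).card : ℝ) * (1 / (n : ℝ) ^ 2)) := by
          simp only [ha]; ring
      _ ≤ _ := mul_le_mul_of_nonneg_right h5 (by positivity)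
  calc ∑ n ∈ Icc 1 N, a n ^ 2 ≤ ∑ n ∈ Icc 1 N, (m : ℝ) ^ m *
        ∑ x ∈ X.filter (fun x => ∏ i, x i = n), ∏ i, (1 / ((x i : ℝ)) ^ 2) := sum_le_sum h3
    _ = (m : ℝ) ^ m * ∑ x ∈ X, ∏ i, (1 / ((x i : ℝ)) ^ 2) := by
        rw [← mul_sum, Finset.sum_fiberwise_of_maps_to hmaps]
    _ = (m : ℝ) ^ m * (∑ p ∈ B, 1 / (p : ℝ) ^ 2) ^ m := by
        rw [Finset.sum_pow' B (fun p : ℕ => 1 / (p : ℝ) ^ 2) m]
    _ ≤ (m : ℝ) ^ m * (1 / (2 : ℝ) ^ j) ^ m := by
        apply mul_le_mul_of_nonneg_left _ (by positivity)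
        apply pow_le_pow_left₀ (sum_nonneg fun p _ => by positivity)
        have h7 : ∀ p ∈ B, 1 / (p : ℝ) ^ 2 ≤ 1 / ((2 : ℝ) ^ j) ^ 2 := by
          intro p hp
          have h8 : (2 : ℝ) ^ j ≤ p := by exact_mod_cast (hB p hp).2.2.1
          apply one_div_le_one_div_of_le (by positivity)
          exact pow_le_pow_left₀ (by positivity) h8 2
        have h9 : B.card ≤ 2 ^ j := by
          have : B ⊆ Ico (2 ^ j) (2 ^ (j + 1)) := by
            intro p hp
            rw [mem_Ico]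
            exact (hB p hp).2.2
          refine (card_le_card this).trans ?_
          rw [Nat.card_Ico, pow_succ]
          omega
        have h10 : (B.card : ℝ) ≤ 2 ^ j := by exact_mod_cast h9
        calc ∑ p ∈ B, 1 / (p : ℝ) ^ 2 ≤ ∑ _p ∈ B, 1 / ((2 : ℝ) ^ j) ^ 2 := sum_le_sum h7
          _ = B.card * (1 / ((2 : ℝ) ^ j) ^ 2) := by rw [sum_const, nsmul_eq_mul]
          _ ≤ 2 ^ j * (1 / ((2 : ℝ) ^ j) ^ 2) := mul_le_mul_of_nonneg_right h10 (by positivity)
          _ = 1 / 2 ^ j := by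
              field_simp

lemma count (hE : S_ELSZ) (T j m : ℕ) (hT : 1 ≤ T) (hm : 1 ≤ m) (hjm : T ^ 3 ≤ (2 ^ j) ^ m)
    (B : Finset ℕ) (hB : ∀ p ∈ B, p.Prime ∧ Odd p ∧ 2 ^ j ≤ p ∧ p < 2 ^ (j + 1))
    (lam : ℝ) (hl : 0 < lam) :
    (((Icc (-(T : ℤ)) T).filter (fun h => lam < |∑ p ∈ B, (lez h p : ℝ) / p|)).card : ℝ) ≤
      (2000 * m * (1 / lam) ^ 2) ^ m * √(T : ℝ) := by
  classical
  set F := (Icc (-(T : ℤ)) T).filter (fun h => lam < |∑ p ∈ B, (lez h p : ℝ) / p|) with hF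
  have h1 := moment hE T j m B hB
  have h2 : (F.card : ℝ) * lam ^ (2 * m) ≤
      ∑ h ∈ Icc (-(T : ℤ)) T, (∑ p ∈ B, (lez h p : ℝ) / p) ^ (2 * m) := by
    calc (F.card : ℝ) * lam ^ (2 * m) = ∑ _h ∈ F, lam ^ (2 * m) := by
          rw [sum_const, nsmul_eq_mul]
      _ ≤ ∑ h ∈ F, (∑ p ∈ B, (lez h p : ℝ) / p) ^ (2 * m) := by
          apply sum_le_sum
          intro h hh
          have h3 : lam < |∑ p ∈ B, (lez h p : ℝ) / p| := (mem_filter.1 hh).2
          rw [← (even_two_mul m).pow_abs (∑ p ∈ B, (lez h p : ℝ) / p)]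
          exact pow_le_pow_left₀ hl.le h3.le _
      _ ≤ _ := by
          apply sum_le_sum_of_subset_of_nonneg (filter_subset _ _)
          intro h _ _
          exact (even_two_mul m).pow_nonneg _
  have hT' : (1 : ℝ) ≤ T := by exact_mod_cast hT
  have hs : (1 : ℝ) ≤ √(T : ℝ) := by
    rw [Real.one_le_sqrt]; exact hT'
  have hs2 : √((T : ℝ) + 1) ≤ 2 * √(T : ℝ) := by
    rw [Real.sqrt_le_left (by positivity), mul_pow, Real.sq_sqrt (by positivity)]
    linarith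
  have hT3 : ((T : ℝ) + 1) ^ 3 ≤ 8 * (T : ℝ) ^ 3 := by
    calc ((T : ℝ) + 1) ^ 3 ≤ (2 * (T : ℝ)) ^ 3 :=
          pow_le_pow_left₀ (by positivity) (by linarith) 3
      _ = 8 * (T : ℝ) ^ 3 := by ring
  have h4 : (4 * (((2 ^ (j + 1)) ^ m : ℕ) : ℝ) * √((T : ℝ) + 1) + 100 * ((T : ℝ) + 1) ^ 3) *
        ((m : ℝ) ^ m * (1 / (2 : ℝ) ^ j) ^ m) ≤ (2000 * m) ^ m * √(T : ℝ) := by
    have h5 : (T : ℝ) ^ 3 * (1 / (2 : ℝ) ^ j) ^ m ≤ 1 := by
      have h6 : (T : ℝ) ^ 3 ≤ ((2 : ℝ) ^ j) ^ m := by exact_mod_cast hjm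
      rw [one_div, inv_pow, ← div_eq_mul_inv]
      exact (div_le_one (by positivity)).2 h6
    have h6 : ((((2 ^ (j + 1)) ^ m : ℕ) : ℝ)) * (1 / (2 : ℝ) ^ j) ^ m = 2 ^ m := by
      push_cast
      rw [← mul_pow]
      congr 1
      rw [pow_succ]
      field_simp
    have h7 : 8 * (2 : ℝ) ^ m + 800 ≤ 2000 ^ m := by
      have e : (2000 : ℝ) ^ m = 1000 ^ m * 2 ^ m := by rw [← mul_pow]; norm_num
      have h8 : (1000 : ℝ) ≤ 1000 ^ m := by
        calc (1000 : ℝ) = 1000 ^ 1 := (pow_one _).symm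
          _ ≤ 1000 ^ m := pow_le_pow_right₀ (by norm_num) hm
      have h9 : (2 : ℝ) ≤ 2 ^ m := by
        calc (2 : ℝ) = 2 ^ 1 := (pow_one _).symm
          _ ≤ 2 ^ m := pow_le_pow_right₀ (by norm_num) hm
      rw [e]
      nlinarith
    have h10 : (0 : ℝ) ≤ (1 / (2 : ℝ) ^ j) ^ m := by positivity
    have h11 : (4 * (((2 ^ (j + 1)) ^ m : ℕ) : ℝ) * √((T : ℝ) + 1) + 100 * ((T : ℝ) + 1) ^ 3) ≤
        4 * (((2 ^ (j + 1)) ^ m : ℕ) : ℝ) * (2 * √(T : ℝ)) + 100 * (8 * (T : ℝ) ^ 3) := by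
      gcongr
    calc (4 * (((2 ^ (j + 1)) ^ m : ℕ) : ℝ) * √((T : ℝ) + 1) + 100 * ((T : ℝ) + 1) ^ 3) *
        ((m : ℝ) ^ m * (1 / (2 : ℝ) ^ j) ^ m)
        ≤ (4 * (((2 ^ (j + 1)) ^ m : ℕ) : ℝ) * (2 * √(T : ℝ)) + 100 * (8 * (T : ℝ) ^ 3)) *
        ((m : ℝ) ^ m * (1 / (2 : ℝ) ^ j) ^ m) := mul_le_mul_of_nonneg_right h11 (by positivity)
      _ = (m : ℝ) ^ m * (8 * (((((2 ^ (j + 1)) ^ m : ℕ) : ℝ) * (1 / (2 : ℝ) ^ j) ^ m) *
          √(T : ℝ)) + 800 * ((T : ℝ) ^ 3 * (1 / (2 : ℝ) ^ j) ^ m)) := by ring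
      _ ≤ (m : ℝ) ^ m * (8 * (2 ^ m * √(T : ℝ)) + 800 * √(T : ℝ)) := by
          apply mul_le_mul_of_nonneg_left _ (by positivity)
          rw [h6]
          linarith
      _ = (m : ℝ) ^ m * ((8 * 2 ^ m + 800) * √(T : ℝ)) := by ring
      _ ≤ (m : ℝ) ^ m * (2000 ^ m * √(T : ℝ)) := by
          apply mul_le_mul_of_nonneg_left _ (by positivity)
          exact mul_le_mul_of_nonneg_right h7 (by positivity)
      _ = (2000 * m) ^ m * √(T : ℝ) := by rw [mul_pow]; ring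
  have h5 : (F.card : ℝ) * lam ^ (2 * m) ≤ (2000 * m) ^ m * √(T : ℝ) := h2.trans (h1.trans h4)
  have h6 : (2000 * (m : ℝ) * (1 / lam) ^ 2) ^ m * √(T : ℝ) =
      ((2000 * m) ^ m * √(T : ℝ)) / lam ^ (2 * m) := by
    rw [mul_pow, ← pow_mul, one_div, inv_pow]
    rw [div_eq_mul_inv]
    ring
  rw [h6, le_div_iff₀ (by positivity)]
  exact h5

lemma sum_tel (δ : ℝ) (n : ℕ) :
    ∑ j ∈ range n, δ / (((j : ℝ) + 1) * (j + 2)) = δ * (1 - 1 / (n + 1)) := by
  induction n with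
  | zero => simp
  | succ n ih =>
    rw [sum_range_succ, ih]
    push_cast
    have h1 : (n : ℝ) + 1 ≠ 0 := by positivity
    have h2 : (n : ℝ) + 2 ≠ 0 := by positivity
    have h3 : (n : ℝ) + 1 + 1 ≠ 0 := by positivity
    field_simp
    ring

/-- the conditions on `T` -/
lemma large (δ : ℝ) (_hδ : 0 < δ) : ∃ T0 : ℕ, ∀ T : ℕ, T0 ≤ T → 1 ≤ T ∧
    1 ≤ Real.log (Real.log T) ∧ 2000 ≤ Real.log T ∧ 486 / δ ≤ Real.log T ∧
    28808 * Real.log (Real.log T) ^ 2 ≤ 3 / 10 * Real.log T ∧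
    24 / δ ≤ (T : ℝ) ^ (1 / 100 : ℝ) ∧ 2000 ≤ (T : ℝ) ^ (1 / 100 : ℝ) := by
  have h1 : Filter.Tendsto (fun T : ℕ => Real.log (T : ℝ)) Filter.atTop Filter.atTop :=
    Real.tendsto_log_atTop.comp tendsto_natCast_atTop_atTop
  have h2 : Filter.Tendsto (fun T : ℕ => (T : ℝ) ^ (1 / 100 : ℝ)) Filter.atTop Filter.atTop :=
    (tendsto_rpow_atTop (by norm_num)).comp tendsto_natCast_atTop_atTop
  have h3 : ∀ᶠ x : ℝ in Filter.atTop, 28808 * Real.log x ^ 2 ≤ 3 / 10 * x := by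
    have h4 := (Real.isLittleO_pow_log_id_atTop (n := 2)).def
      (show (0 : ℝ) < 3 / 10 / 28808 by norm_num)
    filter_upwards [h4, Filter.eventually_ge_atTop 0] with x hx hx0
    simp only [id, Real.norm_eq_abs, abs_of_nonneg hx0] at hx
    rw [abs_of_nonneg (by positivity)] at hx
    linarith
  have h5 := Real.tendsto_log_atTop.comp h1
  have h6 := (Filter.eventually_ge_atTop 1).and ((h5.eventually_ge_atTop 1).and
    ((h1.eventually_ge_atTop 2000).and ((h1.eventually_ge_atTop (486 / δ)).and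
    ((h1.eventually h3).and ((h2.eventually_ge_atTop (24 / δ)).and
    (h2.eventually_ge_atTop 2000))))))
  obtain ⟨T0, hT0⟩ := Filter.eventually_atTop.1 h6
  exact ⟨T0, fun T hT => hT0 T hT⟩

theorem t_EXCZ (hE : S_ELSZ) : S_EXCZ := by
  classical
  intro δ hδ
  obtain ⟨T0, hT0⟩ := large δ hδ
  refine ⟨T0, fun T hT y => ?_⟩
  obtain ⟨hT1, hll, hl8, hlδ, hlog2, htδ, ht8⟩ := hT0 T hT
  set l : ℝ := Real.log T with hl
  set ll : ℝ := Real.log l with hlldef
  set t : ℝ := (T : ℝ) ^ (1 / 100 : ℝ) with ht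
  have hTpos : (0 : ℝ) < T := by exact_mod_cast hT1
  have hlog2' : Real.log 2 < 1 := by
    have := Real.log_two_lt_d9
    linarith
  have hlog2'' : 1 / 2 < Real.log 2 := by
    have := Real.log_two_gt_d9
    linarith
  have hll2 : ll ≤ ll ^ 2 := by nlinarith
  have hll3 : 3601 * ll ≤ l := by nlinarith
  set B := (pr y).filter (fun p : ℕ => z1 T < p ∧ (p : ℝ) ≤ z2 T) with hBdef
  have hBmem : ∀ p ∈ B, p.Prime ∧ z1 T < p ∧ (p : ℝ) ≤ z2 T := by
    intro p hp
    rw [hBdef, mem_filter] at hp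
    refine ⟨?_, hp.2⟩
    have := hp.1
    rw [pr, mem_filter] at this
    exact this.2
  have hz1 : 2 ≤ z1 T := by
    have h1 : 1 ≤ l / (200 * ll) := by
      rw [le_div_iff₀ (by positivity)]
      linarith
    have h2 : Real.exp 1 ≤ z1 T := by
      unfold z1
      exact Real.exp_le_exp.2 h1
    have := Real.add_one_le_exp 1
    linarith
  have hodd : ∀ p ∈ B, Odd p := by
    intro p hp
    obtain ⟨h1, h2, -⟩ := hBmem p hp
    apply h1.odd_of_ne_two
    rintro rfl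
    push_cast at h2
    linarith
  set BB : ℕ → Finset ℕ := fun j => B.filter (fun p => Nat.log 2 p = j) with hBB
  have hBBmem : ∀ j, ∀ p ∈ BB j, p.Prime ∧ Odd p ∧ 2 ^ j ≤ p ∧ p < 2 ^ (j + 1) := by
    intro j p hp
    rw [hBB] at hp
    simp only [mem_filter] at hp
    obtain ⟨h1, rfl⟩ := hp
    refine ⟨(hBmem p h1).1, hodd p h1, Nat.pow_log_le_self 2 (hBmem p h1).1.ne_zero,
      Nat.lt_pow_succ_log_self (by norm_num) p⟩
  -- the range of the blocks
  set n : ℕ := ⌊2 * t⌋₊ + 1 with hn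
  have hmaps : ∀ p ∈ B, Nat.log 2 p ∈ range n := by
    intro p hp
    obtain ⟨h1, -, h2⟩ := hBmem p hp
    rw [mem_range, hn, Nat.lt_succ_iff]
    apply Nat.le_floor
    have h3 : ((2 : ℝ)) ^ (Nat.log 2 p) ≤ p := by
      exact_mod_cast Nat.pow_log_le_self 2 h1.ne_zero
    have h4 : (2 : ℝ) ^ (Nat.log 2 p) ≤ Real.exp t := h3.trans h2
    have h5 : (Nat.log 2 p : ℝ) * Real.log 2 ≤ t := by
      rw [← Real.log_pow]
      calc Real.log ((2 : ℝ) ^ (Nat.log 2 p)) ≤ Real.log (Real.exp t) :=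
            Real.log_le_log (by positivity) h4
        _ = t := Real.log_exp t
    have h6 : (0 : ℝ) ≤ (Nat.log 2 p : ℝ) := Nat.cast_nonneg _
    nlinarith
  have hdec : ∀ h : ℤ, ∑ p ∈ B, (lez h p : ℝ) / p =
      ∑ j ∈ range n, ∑ p ∈ BB j, (lez h p : ℝ) / p := by
    intro h
    exact (Finset.sum_fiberwise_of_maps_to hmaps _).symm
  set lam : ℕ → ℝ := fun j => δ / (((j : ℝ) + 1) * (j + 2)) with hlam
  have hlampos : ∀ j, 0 < lam j := fun j => by
    simp only [hlam]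
    positivity
  have hsub : (Icc (-(T : ℤ)) T).filter (fun h => δ < |∑ p ∈ B, (lez h p : ℝ) / p|) ⊆
      (range n).biUnion (fun j => (Icc (-(T : ℤ)) T).filter
        (fun h => lam j < |∑ p ∈ BB j, (lez h p : ℝ) / p|)) := by
    intro h hh
    rw [mem_filter] at hh
    rw [mem_biUnion]
    by_contra hcon
    simp only [not_exists, not_and] at hcon
    have h1 : ∀ j ∈ range n, |∑ p ∈ BB j, (lez h p : ℝ) / p| ≤ lam j := by
      intro j hj
      by_contra h2
      rw [not_le] at h2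
      exact hcon j hj (mem_filter.2 ⟨hh.1, h2⟩)
    have h2 : |∑ p ∈ B, (lez h p : ℝ) / p| ≤ δ := by
      rw [hdec h]
      refine (abs_sum_le_sum_abs _ _).trans ((sum_le_sum h1).trans ?_)
      simp only [hlam]
      rw [sum_tel]
      have h3 : (0 : ℝ) ≤ 1 / ((n : ℝ) + 1) := by positivity
      nlinarith
    linarith [hh.2]
  -- the bound for one block
  have hT45 : (T : ℝ) ^ (4 / 5 : ℝ) = Real.exp (4 / 5 * l) := by
    rw [Real.rpow_def_of_pos hTpos, mul_comm]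
  have hTexp : (T : ℝ) = Real.exp l := (Real.exp_log hTpos).symm
  have hsq : √(T : ℝ) = Real.exp (1 / 2 * l) := by
    rw [Real.sqrt_eq_rpow, Real.rpow_def_of_pos hTpos, mul_comm]
  have htexp : t = Real.exp (1 / 100 * l) := by
    rw [ht, Real.rpow_def_of_pos hTpos, mul_comm]
  have hlexp : l = Real.exp ll := by
    rw [hlldef, Real.exp_log (by linarith)]
  have hblock : ∀ j ∈ range n, (((Icc (-(T : ℤ)) T).filter
      (fun h => lam j < |∑ p ∈ BB j, (lez h p : ℝ) / p|)).card : ℝ) ≤ (T : ℝ) ^ (4 / 5 : ℝ) := by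
    intro j hj
    rcases (BB j).eq_empty_or_nonempty with hemp | ⟨p, hp⟩
    · have : (Icc (-(T : ℤ)) T).filter (fun h => lam j < |∑ p ∈ BB j, (lez h p : ℝ) / p|) = ∅ := by
        rw [filter_eq_empty_iff]
        intro h _
        rw [hemp, sum_empty, abs_zero, not_lt]
        exact (hlampos j).le
      rw [this, card_empty, Nat.cast_zero]
      positivity
    -- the block is not empty
    have hpB : p ∈ B := (mem_filter.1 hp).1
    obtain ⟨-, -, hp1, hp2⟩ := hBBmem j p hp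
    have hpz := (hBmem p hpB).2.1
    have hj1 : 1 ≤ j := by
      by_contra hj0
      have : j = 0 := by omega
      rw [this] at hp2
      have h1 : (2 : ℝ) < p := lt_of_le_of_lt hz1 hpz
      have h2 : 2 < p := by exact_mod_cast h1
      omega
    have hj1' : (1 : ℝ) ≤ j := by exact_mod_cast hj1
    have hjlow : l < 400 * ll * j := by
      have h1 : z1 T < 2 ^ (j + 1) := hpz.trans (by exact_mod_cast hp2)
      have h2 : l / (200 * ll) < (j + 1 : ℕ) * Real.log 2 := by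
        rw [← Real.log_pow]
        calc l / (200 * ll) = Real.log (z1 T) := by
              unfold z1
              rw [Real.log_exp]
          _ < Real.log (2 ^ (j + 1)) := Real.log_lt_log (by linarith) h1
      push_cast at h2
      rw [div_lt_iff₀ (by positivity)] at h2
      have h3 : ((j : ℝ) + 1) * Real.log 2 ≤ 2 * j := by nlinarith
      calc l < ((j : ℝ) + 1) * Real.log 2 * (200 * ll) := h2
        _ ≤ 2 * j * (200 * ll) := mul_le_mul_of_nonneg_right h3 (by positivity)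
        _ = 400 * ll * j := by ring
    have hjhigh : (j : ℝ) ≤ 2 * t := by
      rw [mem_range, hn, Nat.lt_succ_iff] at hj
      exact (Nat.cast_le.2 hj).trans (Nat.floor_le (by positivity))
    -- the exponent
    set L : ℕ := Nat.log 2 T + 1 with hL
    have hTL : T < 2 ^ L := Nat.lt_pow_succ_log_self (by norm_num) T
    have hL3 : (L : ℝ) ≤ 3 * l := by
      have h1 : (2 : ℝ) ^ (Nat.log 2 T) ≤ T := by
        exact_mod_cast Nat.pow_log_le_self 2 (by omega)
      have h2 : (Nat.log 2 T : ℝ) * Real.log 2 ≤ l := by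
        rw [← Real.log_pow]
        exact Real.log_le_log (by positivity) h1
      have h3 : (0 : ℝ) ≤ (Nat.log 2 T : ℝ) := Nat.cast_nonneg _
      rw [hL]
      push_cast
      nlinarith
    set m : ℕ := 3 * L / j + 1 with hm
    have hjm : T ^ 3 ≤ (2 ^ j) ^ m := by
      have h1 : 3 * L < j * m := Nat.lt_mul_div_succ (3 * L) (by omega)
      calc T ^ 3 ≤ (2 ^ L) ^ 3 := Nat.pow_le_pow_left hTL.le 3
        _ = 2 ^ (3 * L) := by rw [← pow_mul, mul_comm]
        _ ≤ 2 ^ (j * m) := Nat.pow_le_pow_right (by norm_num) h1.le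
        _ = (2 ^ j) ^ m := by rw [pow_mul]
    refine (count hE T j m hT1 (Nat.le_add_left 1 _) hjm (BB j) (hBBmem j) (lam j) (hlampos j)).trans ?_
    have hlaminv : 1 / lam j ≤ 6 * (j : ℝ) ^ 2 / δ := by
      simp only [hlam]
      rw [one_div_div]
      apply div_le_div_of_nonneg_right _ hδ.le
      nlinarith
    have hlaminv0 : 0 ≤ 1 / lam j := (one_div_pos.2 (hlampos j)).le
    rcases Nat.lt_or_ge (3 * L) j with hbig | hsmall
    · -- large blocks
      have hm1 : m = 1 := by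
        rw [hm, Nat.div_eq_of_lt hbig]
      rw [hm1, pow_one, hT45]
      have h1 : 1 / lam j ≤ t ^ 3 := by
        refine hlaminv.trans ?_
        have h2 : 24 ≤ t * δ := by
          rwa [div_le_iff₀ hδ] at htδ
        rw [div_le_iff₀ hδ]
        have h3 : (j : ℝ) ^ 2 ≤ (2 * t) ^ 2 := pow_le_pow_left₀ (by positivity) hjhigh 2
        have h4 : 24 * t ^ 2 ≤ (t * δ) * t ^ 2 := mul_le_mul_of_nonneg_right h2 (by positivity)
        calc 6 * (j : ℝ) ^ 2 ≤ 6 * (2 * t) ^ 2 := by linarith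
          _ = 24 * t ^ 2 := by ring
          _ ≤ (t * δ) * t ^ 2 := h4
          _ = t ^ 3 * δ := by ring
      have h2 : 2000 * ((1 : ℕ) : ℝ) * (1 / lam j) ^ 2 ≤ t ^ 7 := by
        have h3 : (1 / lam j) ^ 2 ≤ (t ^ 3) ^ 2 := pow_le_pow_left₀ hlaminv0 h1 2
        calc 2000 * ((1 : ℕ) : ℝ) * (1 / lam j) ^ 2 = 2000 * (1 / lam j) ^ 2 := by push_cast; ring
          _ ≤ t * (t ^ 3) ^ 2 := mul_le_mul ht8 h3 (by positivity) (by positivity)
          _ = t ^ 7 := by ring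
      calc 2000 * ((1 : ℕ) : ℝ) * (1 / lam j) ^ 2 * √(T : ℝ) ≤ t ^ 7 * √(T : ℝ) :=
            mul_le_mul_of_nonneg_right h2 (by positivity)
        _ = Real.exp (7 * (1 / 100 * l) + 1 / 2 * l) := by
            rw [htexp, hsq, Real.exp_add, ← Real.exp_nat_mul]
            norm_num
        _ ≤ Real.exp (4 / 5 * l) := by
            apply Real.exp_le_exp.2
            nlinarith
    · -- small blocks
      have hj9 : (j : ℝ) ≤ 9 * l := by
        have h1 : (j : ℝ) ≤ 3 * L := by exact_mod_cast hsmall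
        linarith
      have hm1 : (m : ℝ) ≤ 3601 * ll := by
        have h1 : ((3 * L / j : ℕ) : ℝ) ≤ ((3 * L : ℕ) : ℝ) / j := Nat.cast_div_le
        have h2 : ((3 * L : ℕ) : ℝ) / j ≤ 3600 * ll := by
          rw [div_le_iff₀ (by positivity)]
          push_cast
          nlinarith
        rw [hm]
        push_cast
        linarith
      have hm2 : (m : ℝ) ≤ l := hm1.trans hll3
      have h1 : 1 / lam j ≤ l ^ 3 := by
        refine hlaminv.trans ?_
        have h2 : 486 ≤ l * δ := by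
          rwa [div_le_iff₀ hδ] at hlδ
        rw [div_le_iff₀ hδ]
        have h3 : (j : ℝ) ^ 2 ≤ (9 * l) ^ 2 := pow_le_pow_left₀ (by positivity) hj9 2
        have h4 : 486 * l ^ 2 ≤ (l * δ) * l ^ 2 := mul_le_mul_of_nonneg_right h2 (by positivity)
        calc 6 * (j : ℝ) ^ 2 ≤ 6 * (9 * l) ^ 2 := by linarith
          _ = 486 * l ^ 2 := by ring
          _ ≤ (l * δ) * l ^ 2 := h4
          _ = l ^ 3 * δ := by ring
      have h2 : 2000 * (m : ℝ) * (1 / lam j) ^ 2 ≤ l ^ 8 := by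
        have h3 : (1 / lam j) ^ 2 ≤ (l ^ 3) ^ 2 := pow_le_pow_left₀ hlaminv0 h1 2
        calc 2000 * (m : ℝ) * (1 / lam j) ^ 2 ≤ (l * l) * (l ^ 3) ^ 2 := by
              apply mul_le_mul _ h3 (by positivity) (by positivity)
              exact mul_le_mul hl8 hm2 (Nat.cast_nonneg m) (by linarith)
          _ = l ^ 8 := by ring
      calc (2000 * (m : ℝ) * (1 / lam j) ^ 2) ^ m * √(T : ℝ) ≤ (l ^ 8) ^ m * √(T : ℝ) := by
            apply mul_le_mul_of_nonneg_right _ (by positivity)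
            exact pow_le_pow_left₀ (by positivity) h2 m
        _ = Real.exp (8 * m * ll + 1 / 2 * l) := by
            rw [Real.exp_add, hsq]
            congr 1
            rw [← pow_mul]
            conv_lhs => rw [hlexp]
            rw [← Real.exp_nat_mul]
            push_cast
            rfl
        _ ≤ Real.exp (4 / 5 * l) := by
            apply Real.exp_le_exp.2
            have h3 : (m : ℝ) * ll ≤ 3601 * ll * ll :=
              mul_le_mul_of_nonneg_right hm1 (by linarith)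
            nlinarith
        _ = (T : ℝ) ^ (4 / 5 : ℝ) := hT45.symm
  -- all blocks
  have hcard : (((Icc (-(T : ℤ)) T).filter (fun h => δ < |∑ p ∈ B, (lez h p : ℝ) / p|)).card : ℝ) ≤
      n * (T : ℝ) ^ (4 / 5 : ℝ) := by
    have h1 : ((Icc (-(T : ℤ)) T).filter (fun h => δ < |∑ p ∈ B, (lez h p : ℝ) / p|)).card ≤
        ∑ j ∈ range n, ((Icc (-(T : ℤ)) T).filter
          (fun h => lam j < |∑ p ∈ BB j, (lez h p : ℝ) / p|)).card :=
      (card_le_card hsub).trans card_biUnion_le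
    calc (((Icc (-(T : ℤ)) T).filter (fun h => δ < |∑ p ∈ B, (lez h p : ℝ) / p|)).card : ℝ)
        ≤ ((∑ j ∈ range n, ((Icc (-(T : ℤ)) T).filter
          (fun h => lam j < |∑ p ∈ BB j, (lez h p : ℝ) / p|)).card : ℕ) : ℝ) := by
          exact_mod_cast h1
      _ = ∑ j ∈ range n, (((Icc (-(T : ℤ)) T).filter
          (fun h => lam j < |∑ p ∈ BB j, (lez h p : ℝ) / p|)).card : ℝ) := by push_cast; rfl
      _ ≤ ∑ _j ∈ range n, (T : ℝ) ^ (4 / 5 : ℝ) := sum_le_sum hblock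
      _ = n * (T : ℝ) ^ (4 / 5 : ℝ) := by rw [sum_const, nsmul_eq_mul, card_range]
  refine hcard.trans ?_
  have hn2 : (n : ℝ) ≤ t ^ 2 := by
    have h1 : ((⌊2 * t⌋₊ : ℕ) : ℝ) ≤ 2 * t := Nat.floor_le (by positivity)
    rw [hn]
    push_cast
    nlinarith
  calc (n : ℝ) * (T : ℝ) ^ (4 / 5 : ℝ) ≤ t ^ 2 * (T : ℝ) ^ (4 / 5 : ℝ) :=
        mul_le_mul_of_nonneg_right hn2 (by positivity)
    _ = Real.exp (2 * (1 / 100 * l) + 4 / 5 * l) := by
        rw [htexp, hT45, Real.exp_add, ← Real.exp_nat_mul]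
        norm_num
    _ ≤ Real.exp (9 / 10 * l) := by
        apply Real.exp_le_exp.2
        nlinarith
    _ = (T : ℝ) ^ (9 / 10 : ℝ) := by
        rw [Real.rpow_def_of_pos hTpos, mul_comm]

end Pool.Agent.Y67.SQ
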